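import Pool.Agent.R847.HG.Curve

/-!
# MP_b15c9e_ag: return times to curves double, for all endomorphisms over number fields

Let `Φ = [f_0 : … : f_N]` be an endomorphism of `ℙ^N` of degree `d ≥ 2` over a number field `K`, let
`V ⊂ ℙ^N` be an irreducible closed subset over `K` of dimension at most one (a curve), and let
`a ∈ ℙ^N(K)`.

**Theorem.** Either the return set `{n : Φ^n(a) ∈ V}` is a finite union of arithmetic progressions, or
any two return times `m < n` satisfy `n ≥ 2 m - C` for a constant `C`.

So for curves over number fields the Dynamical Mordell-Lang conjecture can fail only along sequences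
of return times `n_1 < n_2 < …` with `n_{j+1} ≥ 2 n_j - C`: the number of return times up to `X` is at
most `log_2 X + O(1)`. There is no condition on `Φ`, on the position of `V` and of `a` with respect to
the critical locus or on the periodic points of `V`. As all data over the algebraic numbers are defined
over a number field, and closed subsets of dimension one are finite unions of irreducible ones, this
covers all closed subsets of dimension one of `ℙ^N` over the field of algebraic numbers; for `N = 2` it
covers all proper closed subsets.

The proof compares two heights. If `a` is not preperiodic then the height of `Φ^m(a)` is at least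
`c d^m`. If `m < n` are return times and `V` is not periodic then some form `g` of a fixed finite set of
equations of `V` is such that `g ∘ Φ^(n-m)` does not vanish on `V` but vanishes at `Φ^m(a) ∈ V`. For a
pair of coordinates the norm of `g ∘ Φ^(n-m)` from the function field of the cone over `V` to the field
of rational functions in the two coordinates is a polynomial which vanishes at the point, and for every
place its coefficients are bounded by `A_v^(d^(n-m))`, where almost all `A_v` are `1`; the latter
because the multiplication matrices of the coordinates satisfy the recursion of the iteration. So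
the height of `Φ^m(a)` is at most `C d^(n-m)`.
-/

set_option autoImplicit false

open MvPolynomial

namespace Pool.Agent.Results.MP_b15c9e_ag.CurveHeightGap

variable {K : Type} [Field K]

/-- The self-map of `K^{N+1}` given by `N + 1` polynomials. -/
noncomputable def coneMap {N : ℕ} (f : Fin (N + 1) → MvPolynomial (Fin (N + 1)) K)
    (x : Fin (N + 1) → K) : Fin (N + 1) → K :=
  fun i => eval x (f i)

/-- The return set of the point `[a]` to the closed set of the common zeros of the members of `S`. -/
def returnSet {N : ℕ} (f : Fin (N + 1) → MvPolynomial (Fin (N + 1)) K)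
    (S : Set (MvPolynomial (Fin (N + 1)) K)) (a : Fin (N + 1) → K) : Set ℕ :=
  {n | ∀ g ∈ S, eval ((coneMap f)^[n] a) g = 0}

/-- A finite union of arithmetic progressions `{a + k n}`, where `k = 0` is allowed. -/
def FiniteUnionAP (A : Set ℕ) : Prop :=
  ∃ T : Finset (ℕ × ℕ), A = {n : ℕ | ∃ q ∈ T, ∃ m : ℕ, n = q.1 * m + q.2}

/-- **Height gap principle for curves.** The forms `f i` of degree `d ≥ 2` define an endomorphism of
`ℙ^N` over the number field `K`; the forms in `S` generate a prime ideal, and the coordinate ring of the
cone over the closed set `V` of their zeros has transcendence degree at most two (so `dim V ≤ 1`). -/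
theorem result [NumberField K] {N d : ℕ} (hd : 2 ≤ d)
    (f : Fin (N + 1) → MvPolynomial (Fin (N + 1)) K) (hf : ∀ i, (f i).IsHomogeneous d)
    (h0 : ∀ x : Fin (N + 1) → AlgebraicClosure K, (∀ i, aeval x (f i) = 0) → x = 0)
    (S : Set (MvPolynomial (Fin (N + 1)) K)) (hS : ∀ g ∈ S, ∃ e : ℕ, g.IsHomogeneous e)
    (hprime : (Ideal.span S).IsPrime)
    (hdim : Algebra.trdeg K (MvPolynomial (Fin (N + 1)) K ⧸ Ideal.span S) ≤ 2)
    (a : Fin (N + 1) → K) (ha : a ≠ 0) :
    FiniteUnionAP (returnSet f S a) ∨
      ∃ C : ℕ, ∀ m ∈ returnSet f S a, ∀ n ∈ returnSet f S a, m < n → 2 * m ≤ n + C := by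
  have h1 : coneMap f = Pool.Agent.R847.HG.stepR f := by
    funext x i
    rw [coneMap, Pool.Agent.R847.HG.stepR, ← coe_aeval_eq_eval]
    rfl
  have h2 : returnSet f S a =
      {n : ℕ | ∀ g ∈ S, aeval ((Pool.Agent.R847.HG.stepR f)^[n] a) g = 0} := by
    ext n
    simp only [returnSet, Set.mem_ofPred_eq, h1, ← coe_aeval_eq_eval, RingHom.coe_coe]
  rw [h2]
  exact Pool.Agent.R847.HG.curve_gap hd f hf h0 S hS hprime hdim a ha

end Pool.Agent.Results.MP_b15c9e_ag.CurveHeightGap
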