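import Pool.Agent.R847.SB.PowX
import Pool.Agent.R847.SN.Fam

/-!
# MP_b15c9e_ag: Dynamical Mordell-Lang for curves that avoid the critical cycles at infinity

Let `f = (f_0, …, f_N)` be a polynomial self-map of `𝔸^{N+1}` of degree `d ≥ 2` with algebraic
coefficients whose leading forms `F = (F_0, …, F_N)` have no common zero in `ℂ^{N+1}` but `0`; so `f`
extends to an endomorphism of `ℙ^{N+1}` (with a totally invariant hyperplane, on which it is `F`). Let
`V` be a closed subset of `𝔸^{N+1}` over `ℂ` of dimension at most one and let `a` be a point with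
algebraic coordinates.

**Theorem.** If no point at infinity of `V` is a periodic point of `F` whose cycle contains a critical
point of `F`, then `{n : f^n(a) ∈ V}` is a finite union of arithmetic progressions.

There is no condition on the points at infinity of `V` that are not periodic, and no condition on the
orbits of the critical points. For instance, if `F` has no periodic critical point then the Dynamical
Mordell-Lang property holds for all `V` of dimension at most one and all algebraic points; this is the
case for the maps `f_i = (x_0 - (1 - ζ) x_{i+1})^d + g_i` (`ζ ≠ 1` a `d`-th root of unity,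
`i = 0, …, N`, `x_{N+1} = x_0`) with arbitrary polynomials `g_i` of degree less than `d` with algebraic
coefficients. For the maps `f_i = x_i^d + g_i` it holds for all `V` of dimension at most one such that
no point at infinity of `V` has a coordinate zero and all quotients of nonzero coordinates roots of
unity.

The proof: let `a` be not preperiodic and let the return set be infinite. Take the sequence of the
points `f^n(a)` along an ultrafilter of return times, and their predecessors `f^{n-k}(a)`; they lie on
curves `V_k`. Let `S` be the set of the places of the number field at which the sequence is unbounded.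
At `v ∈ S` the leading coefficients of the predecessors converge to algebraic points `y_k` with
`F(y_{k+1}) = y_k`, which are points at infinity of the curves `V_k`.

(1) The degrees of the points `[y_k]` are bounded. The coordinates of the `k`-th predecessors generate
a valued field (in an ultrapower) of transcendence degree one with the value group `(1/e)ℤ` and with
residue field `k([y_k])`. If `b` elements of the residue field are linearly independent over the
ground field then by approximation and counting there are `e b (D - c)` linearly independent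
polynomials of degree at most `D` and as many independent linear forms in them with algebraic
coefficients, and with the values `(-D + i/e)_i`. By Schmidt's subspace theorem this is not possible
if `b` is larger than a bound that depends only on the ratios of the local heights of the points
`f^n(a)`, and these do not depend on `k`.

(2) By the Northcott property the points `[y_k]` are periodic, so `[y_0]`, a point at infinity of `V`,
is periodic and the `[y_k]` are the points of its cycle, and are not critical by assumption.

(3) So the predecessors have for large `k` expansions of large order at `y_k` with algebraic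
coefficients, by Schmidt's subspace theorem any `2m + 2` polynomials of degree at most `m` are
linearly dependent on the `k`-th predecessors for `k ≥ k(m)`, the expansions and hence the equations
of bounded degree of the `k`-th predecessors are periodic for `k ≥ k(m)`, and this implies that the
curves `V_k` are periodic.
-/

set_option autoImplicit false

open MvPolynomial

namespace Pool.Agent.Results.MP_b15c9e_ag.CurvesOffCriticalCycles

variable {N : ℕ}

/-- The polynomial self-map of `ℂ^{N+1}`. -/
noncomputable def selfMap (f : Fin (N + 1) → MvPolynomial (Fin (N + 1)) ℂ) (x : Fin (N + 1) → ℂ) :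
    Fin (N + 1) → ℂ :=
  fun i => eval x (f i)

/-- The self-map of `ℂ^{N+1}` given by the forms of degree `d`. -/
noncomputable def topMap (d : ℕ) (f : Fin (N + 1) → MvPolynomial (Fin (N + 1)) ℂ)
    (x : Fin (N + 1) → ℂ) : Fin (N + 1) → ℂ :=
  fun i => eval x (homogeneousComponent d (f i))

/-- The common zeros of a set of complex polynomials. -/
def zeros (V : Set (MvPolynomial (Fin (N + 1)) ℂ)) : Set (Fin (N + 1) → ℂ) :=
  {z | ∀ g ∈ V, eval z g = 0}

/-- The zero set has dimension at most one: any two coordinates satisfy a polynomial equation. -/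
def DimLeOne (V : Set (MvPolynomial (Fin (N + 1)) ℂ)) : Prop :=
  ∀ i j, ∃ P : MvPolynomial (Fin 2) ℂ, P ≠ 0 ∧ ∀ z ∈ zeros V, eval ![z i, z j] P = 0

/-- All coefficients are algebraic numbers. -/
def AlgCoeff (f : Fin (N + 1) → MvPolynomial (Fin (N + 1)) ℂ) : Prop :=
  ∀ i κ, IsAlgebraic ℚ (coeff κ (f i))

/-- Polynomials of degree at most `d` whose forms of degree `d` have no common zero but `0`. -/
def Regular (d : ℕ) (f : Fin (N + 1) → MvPolynomial (Fin (N + 1)) ℂ) : Prop :=
  (∀ i, (f i).totalDegree ≤ d) ∧
    ∀ z : Fin (N + 1) → ℂ, (∀ i, eval z (homogeneousComponent d (f i)) = 0) → z = 0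

/-- The vectors whose direction is a point at infinity of the zero set: the leading form of each
polynomial vanishing on the zero set vanishes at `y`. -/
def AtInfinity (V : Set (MvPolynomial (Fin (N + 1)) ℂ)) (y : Fin (N + 1) → ℂ) : Prop :=
  ∀ g : MvPolynomial (Fin (N + 1)) ℂ, (∀ z ∈ zeros V, eval z g = 0) →
    eval y (homogeneousComponent g.totalDegree g) = 0

/-- The determinant of the matrix of the derivatives of the forms of degree `d`. -/
noncomputable def jacDet (d : ℕ) (f : Fin (N + 1) → MvPolynomial (Fin (N + 1)) ℂ)
    (y : Fin (N + 1) → ℂ) : ℂ :=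
  (Matrix.of fun i j => eval y (pderiv j (homogeneousComponent d (f i)))).det

/-- No point at infinity `[z]` of `V` is periodic under the map `[z] ↦ [F(z)]` of `ℙ^N` with a
critical point in its cycle. -/
def OffCriticalCycles (d : ℕ) (f : Fin (N + 1) → MvPolynomial (Fin (N + 1)) ℂ)
    (V : Set (MvPolynomial (Fin (N + 1)) ℂ)) : Prop :=
  ∀ z : Fin (N + 1) → ℂ, z ≠ 0 → AtInfinity V z → ∀ l ≥ 1, ∀ c : ℂ, c ≠ 0 →
    (topMap d f)^[l] z = c • z → ∀ t, jacDet d f ((topMap d f)^[t] z) ≠ 0

/-- The return set of the point `a`. -/
def returnSet (f : Fin (N + 1) → MvPolynomial (Fin (N + 1)) ℂ)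
    (V : Set (MvPolynomial (Fin (N + 1)) ℂ)) (a : Fin (N + 1) → ℂ) : Set ℕ :=
  {n | (selfMap f)^[n] a ∈ zeros V}

/-- A finite union of arithmetic progressions `{a + k n}`, where `k = 0` is allowed. -/
def FiniteUnionAP (A : Set ℕ) : Prop :=
  ∃ T : Finset (ℕ × ℕ), A = {n : ℕ | ∃ q ∈ T, ∃ m : ℕ, n = q.1 * m + q.2}

/-- **Dynamical Mordell-Lang for curves and regular polynomial endomorphisms.** -/
theorem result :
    (∀ (N d : ℕ) (f : Fin (N + 1) → MvPolynomial (Fin (N + 1)) ℂ), 2 ≤ d → AlgCoeff f →
      Regular d f → ∀ V : Set (MvPolynomial (Fin (N + 1)) ℂ), DimLeOne V →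
        OffCriticalCycles d f V →
        ∀ a : Fin (N + 1) → ℂ, (∀ i, IsAlgebraic ℚ (a i)) → FiniteUnionAP (returnSet f V a)) ∧
    (∀ (N d : ℕ) (ζ : ℂ) (g : Fin (N + 1) → MvPolynomial (Fin (N + 1)) ℂ), 2 ≤ d → ζ ^ d = 1 →
      ζ ≠ 1 → (∀ i, (g i).totalDegree < d) → AlgCoeff g →
      Regular d (fun i => (X 0 - C (1 - ζ) * X (i + 1)) ^ d + g i) ∧
      ∀ V : Set (MvPolynomial (Fin (N + 1)) ℂ), DimLeOne V →
        ∀ a : Fin (N + 1) → ℂ, (∀ i, IsAlgebraic ℚ (a i)) →
          FiniteUnionAP (returnSet (fun i => (X 0 - C (1 - ζ) * X (i + 1)) ^ d + g i) V a)) ∧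
    (∀ (N d : ℕ) (g : Fin (N + 1) → MvPolynomial (Fin (N + 1)) ℂ), 2 ≤ d →
      (∀ i, (g i).totalDegree < d) → AlgCoeff g →
      ∀ V : Set (MvPolynomial (Fin (N + 1)) ℂ), DimLeOne V →
        (∀ y : Fin (N + 1) → ℂ, y ≠ 0 → AtInfinity V y → (∃ i, y i = 0) →
          ∃ i j, y j ≠ 0 ∧ y i ≠ 0 ∧ ∀ n ≥ 1, (y i / y j) ^ n ≠ 1) →
        ∀ a : Fin (N + 1) → ℂ, (∀ i, IsAlgebraic ℚ (a i)) →
          FiniteUnionAP (returnSet (fun i => X i ^ d + g i) V a)) := by
  refine ⟨fun N d f hd halg hf V hV hper a ha => ?_,
    fun N d ζ g hd hζ hζ1 hg halg => ⟨⟨fun i => ?_, fun z hz => ?_⟩, fun V hV a ha => ?_⟩,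
    fun N d g hd hg halg V hV hinf a ha => ?_⟩
  · exact Pool.Agent.R847.SB.dml_alg' d hd f hf.1 halg hf.2 V hV hper
      (fun n => (selfMap f)^[n] a) (fun n i => by
        simp only [Function.iterate_succ_apply', selfMap]) ha
  · exact Pool.Agent.R847.SN.fs_deg d ζ i (g i) (hg i)
  · have hζ0 : ζ ≠ 0 := by
      rintro rfl
      rw [zero_pow (by omega)] at hζ
      exact zero_ne_one hζ
    apply Pool.Agent.R847.PC.fs_ne (d := d) (by omega) hζ1 hζ0 z
    intro i
    have h1 := hz i
    have h2 := Pool.Agent.R847.SN.fs_top d ζ i (g i) (hg i)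
    unfold Pool.Agent.R847.PC.fs at h2 ⊢
    rwa [h2] at h1
  · exact Pool.Agent.R847.SN.dml_fs d hd ζ hζ hζ1 g hg halg V hV
      (fun n => (selfMap fun i => (X 0 - C (1 - ζ) * X (i + 1)) ^ d + g i)^[n] a) (fun n i => by
        simp only [Function.iterate_succ_apply', selfMap]) ha
  · exact Pool.Agent.R847.SB.dml_pow d hd g hg halg V hV hinf
      (fun n => (selfMap fun i => X i ^ d + g i)^[n] a) (fun n i => by
        simp only [Function.iterate_succ_apply', selfMap]) ha

end Pool.Agent.Results.MP_b15c9e_ag.CurvesOffCriticalCycles
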