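import Pool.Agent.R847.Gap.Proj

/-!
# MP_b15c9e_ag: a gap principle for return sets of arbitrary endomorphisms of projective space

Let `Φ = [f_0 : … : f_N]` be an endomorphism of `ℙ^N` over `ℂ` and let `V ⊂ ℙ^N` be the closed subset
given by a set `S` of forms. The return set of a point `α` is the set of the `n` with `Φ^n(α) ∈ V`.
A point `z` is called trapped if its return set contains `0, m, 2m, 3m, …` for some `m ≥ 1`. So the
trapped points are the points which an iterate of `Φ` never moves out of `V`.

**Theorem.** Suppose that only finitely many points are trapped, and that `Φ` is etale at `Φ^n(z)` for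
every trapped point `z` and all large `n`. Then for every point `α` of `ℙ^N(ℂ)`

* either the return set of `α` is a finite union of arithmetic progressions (that is, the assertion of
  the Dynamical Mordell-Lang conjecture holds for `V, Φ, α`),
* or the return set of `α` is exponentially sparse: there are `M` and `δ > 0` such that for all large
  `n` it has at most `M` elements between `n` and `exp (δ n)`.

In particular, if no point is trapped (the return sets contain no infinite arithmetic progression),
then all return sets are exponentially sparse; the number of their elements up to `X` is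
`O(log* X)`, where `log*` is the number of iterations of the logarithm which are needed to bring `X`
below `1`.

No assumption is made on the critical locus, on the position of the orbit of `α` with respect to it,
or on the field of definition.

The proof. For a prime `p` and an isomorphism of `ℂ` with the algebraic closure of `ℚ_p` such that
everything has good reduction, some iterate `H` of `Φ` acts on a residue polydisc of the orbit, in
scaled coordinates, by a polynomial map which is idempotent modulo `p²`: for the comorphism `T` one has
`T (T - 1) ≡ 0` modulo `p²`. Thus the `j`-th difference at `n` of the values of any polynomial along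
the orbit is divisible by `p^(2 min(j,n))`. It follows that the orbit has a shadow: a point `y` whose
orbit is `p`-adically analytic in the time and such that the distance of the two orbits at the time `n`
is at most `p^(-2n)`. If the shadow leaves `V` then the return times are approximate zeros of a non
zero analytic function of the time, and a quantitative form of the bound of Strassmann gives the
gaps. If the shadow stays in `V` then it is trapped, so `Φ` is etale modulo `p` along the orbit, and
`p`-adic interpolation gives the progressions.
-/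

set_option autoImplicit false

open MvPolynomial

namespace Pool.Agent.Results.MP_b15c9e_ag.GapPrinciple

/-- The self-map of `ℂ^{N+1}` given by `N + 1` polynomials. -/
noncomputable def coneMap {N : ℕ} (f : Fin (N + 1) → MvPolynomial (Fin (N + 1)) ℂ)
    (x : Fin (N + 1) → ℂ) : Fin (N + 1) → ℂ :=
  fun i => eval x (f i)

/-- The return set of the point `[z]` to the closed set of the common zeros of the members of `S`. -/
def returnSet {N : ℕ} (f : Fin (N + 1) → MvPolynomial (Fin (N + 1)) ℂ)
    (S : Set (MvPolynomial (Fin (N + 1)) ℂ)) (z : Fin (N + 1) → ℂ) : Set ℕ :=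
  {n | ∀ g ∈ S, eval ((coneMap f)^[n] z) g = 0}

/-- The return set of `[z]` contains `0, m, 2m, …` for some `m ≥ 1`. -/
def Trapped {N : ℕ} (f : Fin (N + 1) → MvPolynomial (Fin (N + 1)) ℂ)
    (S : Set (MvPolynomial (Fin (N + 1)) ℂ)) (z : Fin (N + 1) → ℂ) : Prop :=
  ∃ m, 0 < m ∧ ∀ t : ℕ, m * t ∈ returnSet f S z

/-- The determinant of the matrix of the partial derivatives of the forms does not vanish at the
`n`-th iterate of `z`, for all large `n`: the map of projective spaces is etale at these points. -/
def EventuallyEtale {N : ℕ} (f : Fin (N + 1) → MvPolynomial (Fin (N + 1)) ℂ)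
    (z : Fin (N + 1) → ℂ) : Prop :=
  ∃ n₀, ∀ n, n₀ ≤ n →
    (Matrix.of fun i j => eval ((coneMap f)^[n] z) (pderiv j (f i))).det ≠ 0

/-- A set of natural numbers is exponentially sparse if there are `M` and `δ > 0` such that for all
large `n` it has at most `M` elements between `n` and `exp (δ n)`. -/
def ExpSparse (A : Set ℕ) : Prop :=
  ∃ (M : ℕ) (δ : ℝ), 0 < δ ∧
    ∀ᶠ n : ℕ in Filter.atTop, {m ∈ A | n ≤ m ∧ (m : ℝ) ≤ Real.exp (δ * n)}.ncard ≤ M

/-- A finite union of arithmetic progressions `{a + k n}`, where `k = 0` is allowed. -/
def FiniteUnionAP (A : Set ℕ) : Prop :=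
  ∃ T : Finset (ℕ × ℕ), A = {n : ℕ | ∃ q ∈ T, ∃ m : ℕ, n = q.1 * m + q.2}

/-- A finite set is exponentially sparse. -/
lemma expSparse_of_finite {A : Set ℕ} (hA : A.Finite) : ExpSparse A := by
  refine ⟨A.ncard, 1, one_pos, Filter.Eventually.of_forall fun n => ?_⟩
  exact Set.ncard_le_ncard (fun m hm => hm.1) hA

/-- **Gap principle for endomorphisms of projective space.** -/
theorem result {N d : ℕ} (f : Fin (N + 1) → MvPolynomial (Fin (N + 1)) ℂ)
    (hf : ∀ i, (f i).IsHomogeneous d)
    (h0 : ∀ x : Fin (N + 1) → ℂ, (∀ i, eval x (f i) = 0) → x = 0)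
    (S : Set (MvPolynomial (Fin (N + 1)) ℂ)) (hS : ∀ g ∈ S, ∃ e : ℕ, g.IsHomogeneous e)
    (hfin : ∃ E : Finset (Fin (N + 1) → ℂ), ∀ z, z ≠ 0 → Trapped f S z →
      ∃ w ∈ E, ∃ c : ℂ, z = c • w)
    (hetale : ∀ z, z ≠ 0 → Trapped f S z → EventuallyEtale f z)
    (a : Fin (N + 1) → ℂ) (ha : a ≠ 0) :
    (FiniteUnionAP (returnSet f S a) ∨ ExpSparse (returnSet f S a)) ∧
      ((∀ z, z ≠ 0 → ¬ Trapped f S z) → ExpSparse (returnSet f S a)) := by
  classical
  have hmain : FiniteUnionAP (returnSet f S a) ∨ ExpSparse (returnSet f S a) := by
    obtain ⟨E, hE⟩ := hfin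
    rcases Pool.Agent.R847.Gap.proj_gap f hf h0 S hS (E : Set (Fin (N + 1) → ℂ)) E.finite_toSet
      (fun z hz ht => ⟨hE z hz ht, hetale z hz ht⟩) a ha with h | h
    · exact Or.inl h
    · right
      obtain ⟨M, δ, n₁, hδ, hM⟩ := h
      refine ⟨M, δ, hδ, ?_⟩
      filter_upwards [Filter.eventually_ge_atTop n₁] with n hn
      have hfin : {m ∈ returnSet f S a | n ≤ m ∧ (m : ℝ) ≤ Real.exp (δ * n)}.Finite := by
        apply (Set.finite_Iic ⌊Real.exp (δ * n)⌋₊).subset
        intro m hm
        exact Nat.le_floor hm.2.2
      rw [Set.ncard_eq_toFinset_card _ hfin]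
      apply hM n hn
      intro m hm
      rw [Set.Finite.mem_toFinset] at hm
      exact hm
  refine ⟨hmain, fun hno => ?_⟩
  rcases hmain with ⟨T, hT⟩ | h
  · apply expSparse_of_finite
    have hq : ∀ q ∈ T, q.1 = 0 := by
      intro q hq
      by_contra hne
      apply hno ((coneMap f)^[q.2] a)
      · exact Pool.Agent.H936R2.pt_ne_zero f h0 a ha q.2
      · refine ⟨q.1, Nat.pos_of_ne_zero hne, fun t => ?_⟩
        have h1 : q.1 * t + q.2 ∈ returnSet f S a := by
          rw [hT]
          exact ⟨q, hq, t, rfl⟩
        intro g hg
        rw [← Function.iterate_add_apply]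
        exact h1 g hg
    rw [hT]
    apply (T.finite_toSet.image fun q => q.2).subset
    rintro n ⟨q, hqT, m, rfl⟩
    exact ⟨q, hqT, by rw [hq q hqT, zero_mul, zero_add]⟩
  · exact h

end Pool.Agent.Results.MP_b15c9e_ag.GapPrinciple
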