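import Pool.Agent.R847.PC.Proj

/-!
# MP_b15c9e_ag: the Dynamical Mordell-Lang property of strictly critically finite endomorphisms

Let `Φ = [f_0 : … : f_N]` be an endomorphism of `ℙ^N` over `ℂ` with critical locus `C`. In dimension
one `Φ` is strictly critically finite if all critical points are preperiodic and none is periodic. In
higher dimension the images of the critical locus are hypersurfaces, and one has to look at the critical
points of the restriction to the periodic components, and so on (Ueda, Jonsson). We call `Φ`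
*strictly critically finite outside `B`* if there are closed sets

  `ℙ^N = D_0, D_1, …, D_k = B` with `Φ(D_i) ⊆ D_i`, such that for all `i < k` some iterate of `Φ` maps
  `D_i ∩ C` into `D_{i+1}`, and `Φ^{-1}(B) ⊆ B`.

For `B = ∅` this is the strict critical finiteness of Ueda; `B` may be for
instance the hyperplane at infinity of a regular polynomial map, or the union of the coordinate
hyperplanes.

**Theorem, first part.** If `Φ` is strictly critically finite outside `B` then for every closed set `V`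
and every point `α ∉ B` of `ℙ^N(ℂ)` the return set is a finite union of arithmetic progressions. So
`Φ` has the Dynamical Mordell-Lang property if `B = ∅`.

**Second part.** For all `N`, all `d` and all `d`-th roots of unity `ζ ≠ 1` the endomorphism of `ℙ^N`

  `x_i ↦ (x_0 - (1 - ζ) x_{i+1})^d`, `i = 0, …, N`, `x_{N+1} = x_0`,

is strictly critically finite outside `∅`; so it has the Dynamical Mordell-Lang property. For
`N = 2`, `d = 2`, `ζ = -1` this is the map `((x-2y)^2 : (x-2z)^2 : x^2)` of Fornæss and Sibony, whose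
Julia set is the whole plane.

The proof. By the Nullstellensatz, the inclusions between the closed sets hold modulo almost all primes.
If the cycle of the reduction of the orbit of `α` modulo `p` contains a critical point then it is
contained in `D_1`, hence (look at this critical point again) in `D_2`, and so on, hence in `B`. But `α`
is not in `B` modulo almost all primes, and `B` is totally invariant. So the orbit is etale
modulo `p` from some time on, and `p`-adic interpolation applies. In the examples `D_i` is the set of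
the points with at most `N + 1 - i` different coordinates.
-/

set_option autoImplicit false

open MvPolynomial

namespace Pool.Agent.Results.MP_b15c9e_ag.StrictlyCriticallyFinite

/-- The self-map of `ℂ^{N+1}` given by `N + 1` polynomials. -/
noncomputable def coneMap {N : ℕ} (f : Fin (N + 1) → MvPolynomial (Fin (N + 1)) ℂ)
    (x : Fin (N + 1) → ℂ) : Fin (N + 1) → ℂ :=
  fun i => eval x (f i)

/-- The return set of the point `[z]` to the closed set of the common zeros of the members of `S`. -/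
def returnSet {N : ℕ} (f : Fin (N + 1) → MvPolynomial (Fin (N + 1)) ℂ)
    (S : Set (MvPolynomial (Fin (N + 1)) ℂ)) (z : Fin (N + 1) → ℂ) : Set ℕ :=
  {n | ∀ g ∈ S, eval ((coneMap f)^[n] z) g = 0}

/-- The closed subset of projective space given by a set of forms (as a set of nonzero vectors). -/
def zeroSet {N : ℕ} (S : Set (MvPolynomial (Fin (N + 1)) ℂ)) : Set (Fin (N + 1) → ℂ) :=
  {x | x ≠ 0 ∧ ∀ g ∈ S, eval x g = 0}

/-- The critical locus: the zeros of the Jacobian determinant. -/
def critical {N : ℕ} (f : Fin (N + 1) → MvPolynomial (Fin (N + 1)) ℂ) : Set (Fin (N + 1) → ℂ) :=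
  {x | (Matrix.of fun i j => eval x (pderiv j (f i))).det = 0}

/-- `f` is strictly critically finite outside the totally invariant closed set given by `B`. -/
def StrictlyCriticallyFinite {N : ℕ} (f : Fin (N + 1) → MvPolynomial (Fin (N + 1)) ℂ)
    (B : Set (MvPolynomial (Fin (N + 1)) ℂ)) : Prop :=
  ∃ (k : ℕ) (D : ℕ → Set (MvPolynomial (Fin (N + 1)) ℂ)),
    (∀ i, ∀ g ∈ D i, ∃ e : ℕ, g.IsHomogeneous e) ∧
    zeroSet (D 0) = {x | x ≠ 0} ∧ D k = B ∧
    (∀ i ≤ k, ∀ x ∈ zeroSet (D i), coneMap f x ∈ zeroSet (D i)) ∧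
    (∀ i < k, ∃ m : ℕ, ∀ x ∈ zeroSet (D i), x ∈ critical f →
      (coneMap f)^[m] x ∈ zeroSet (D (i + 1))) ∧
    ∀ x, x ≠ 0 → coneMap f x ∈ zeroSet B → x ∈ zeroSet B

/-- A finite union of arithmetic progressions `{a + k n}`, where `k = 0` is allowed. -/
def FiniteUnionAP (A : Set ℕ) : Prop :=
  ∃ T : Finset (ℕ × ℕ), A = {n : ℕ | ∃ q ∈ T, ∃ m : ℕ, n = q.1 * m + q.2}

/-- The forms `(x_0 - (1 - ζ) x_{i+1})^d`, `i = 0, …, N`, with `x_{N+1} = x_0`. -/
noncomputable def fsMap (N d : ℕ) (ζ : ℂ) : Fin (N + 1) → MvPolynomial (Fin (N + 1)) ℂ :=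
  fun i => (X 0 - C (1 - ζ) * X (i + 1)) ^ d

theorem first {N d : ℕ} (hd : 1 ≤ d) (f : Fin (N + 1) → MvPolynomial (Fin (N + 1)) ℂ)
    (hf : ∀ i, (f i).IsHomogeneous d)
    (h0 : ∀ x : Fin (N + 1) → ℂ, (∀ i, eval x (f i) = 0) → x = 0)
    (B : Set (MvPolynomial (Fin (N + 1)) ℂ)) (hB : StrictlyCriticallyFinite f B)
    (S : Set (MvPolynomial (Fin (N + 1)) ℂ)) (a : Fin (N + 1) → ℂ) (ha : a ≠ 0)
    (haB : a ∉ zeroSet B) : FiniteUnionAP (returnSet f S a) := by
  obtain ⟨k, D, hD, hD0, rfl, hinv, hcrit, htot⟩ := hB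
  have hne : ∀ x : Fin (N + 1) → ℂ, x ≠ 0 → coneMap f x ≠ 0 := fun x hx h =>
    hx (h0 x fun i => congrFun h i)
  apply Pool.Agent.R847.PC.strict_proj f h0 ?_ k D
  · intro z hz
    have : z ∈ zeroSet (D 0) := by
      rw [hD0]
      exact hz
    exact this.2
  · exact fun i hi z hz h => (hinv i hi z ⟨hz, h⟩).2
  · intro i hi
    obtain ⟨m, hm⟩ := hcrit i hi
    exact ⟨m, fun z hz h hj => (hm z ⟨hz, h⟩ hj).2⟩
  · exact fun z hz h => (htot z hz ⟨hne z hz, h⟩).2
  · exact ha
  · by_contra hno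
    push Not at hno
    exact haB ⟨ha, hno⟩
  · funext i
    change eval 0 (f i) = 0
    have h1 := Pool.Agent.R847.QP.hom_scale (f i) d (hf i) 0 0
    rw [zero_smul, zero_pow (by omega), zero_mul] at h1
    exact h1

theorem fs_strict {N d : ℕ} {ζ : ℂ} (hd : 1 ≤ d) (hζ : ζ ^ d = 1) (hζ1 : ζ ≠ 1) :
    StrictlyCriticallyFinite (fsMap N d ζ) {1} := by
  have hd0 : d ≠ 0 := by omega
  have hζ0 : ζ ≠ 0 := by
    rintro rfl
    rw [zero_pow hd0] at hζ
    exact zero_ne_one hζ
  have hne : ∀ x : Fin (N + 1) → ℂ, x ≠ 0 → coneMap (fsMap N d ζ) x ≠ 0 := fun x hx h =>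
    hx (Pool.Agent.R847.PC.fs_ne hd0 hζ1 hζ0 x fun i => congrFun h i)
  have hneit : ∀ (x : Fin (N + 1) → ℂ), x ≠ 0 → ∀ n, (coneMap (fsMap N d ζ))^[n] x ≠ 0 := by
    intro x hx n
    induction n with
    | zero => exact hx
    | succ n ih =>
      rw [Function.iterate_succ_apply']
      exact hne _ ih
  have hone : zeroSet (N := N) {1} = ∅ := by
    ext x
    constructor
    · rintro ⟨-, h⟩
      have := h 1 rfl
      rw [map_one] at this
      exact one_ne_zero this
    · exact fun h => h.elim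
  let D : ℕ → Set (MvPolynomial (Fin (N + 1)) ℂ) := fun i =>
    if i = N + 1 then {1} else Set.range (Pool.Agent.R847.PC.vdm (N := N) (N + 2 - i))
  have hDlt : ∀ i, i < N + 1 → ∀ x, x ∈ zeroSet (D i) ↔
      x ≠ 0 ∧ Pool.Agent.R847.PC.nd x < N + 2 - i := by
    intro i hi x
    simp only [D, if_neg (show i ≠ N + 1 by omega)]
    rw [← Pool.Agent.R847.PC.nd_lt_iff]
    constructor
    · rintro ⟨h1, h2⟩
      exact ⟨h1, fun φ => h2 _ ⟨φ, rfl⟩⟩
    · rintro ⟨h1, h2⟩
      refine ⟨h1, ?_⟩
      rintro _ ⟨φ, rfl⟩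
      exact h2 φ
  refine ⟨N + 1, D, ?_, ?_, ?_, ?_, ?_, ?_⟩
  · intro i g hg
    by_cases hi : i = N + 1
    · simp only [D, if_pos hi, Set.mem_singleton_iff] at hg
      rw [hg]
      exact ⟨0, isHomogeneous_one _ _⟩
    · simp only [D, if_neg hi] at hg
      obtain ⟨φ, rfl⟩ := hg
      exact Pool.Agent.R847.PC.vdm_homogeneous _ _
  · ext x
    rw [hDlt 0 (by omega)]
    have := Pool.Agent.R847.PC.nd_le x
    constructor
    · exact fun h => h.1
    · exact fun h => ⟨h, by omega⟩
  · simp [D]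
  · intro i hi x hx
    rcases Nat.lt_or_ge i (N + 1) with h | h
    · rw [hDlt i h] at hx ⊢
      exact ⟨hne x hx.1, lt_of_le_of_lt (Pool.Agent.R847.PC.nd_fs_le x) hx.2⟩
    · have hi' : i = N + 1 := by omega
      simp only [D, if_pos hi', hone] at hx
      exact hx.elim
  · intro i hi
    refine ⟨N + 2, fun x hx hxc => ?_⟩
    rw [hDlt i hi] at hx
    have h1 := Pool.Agent.R847.PC.fs_drop hd0 hζ hζ1 x hx.1 hxc
    change Pool.Agent.R847.PC.nd ((coneMap (fsMap N d ζ))^[N + 2] x) < _ at h1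
    have h2 := Pool.Agent.R847.PC.nd_pos ((coneMap (fsMap N d ζ))^[N + 2] x)
    rcases Nat.lt_or_ge (i + 1) (N + 1) with h | h
    · rw [hDlt (i + 1) h]
      exact ⟨hneit x hx.1 _, by omega⟩
    · exfalso
      omega
  · intro x _ hx
    rw [hone] at hx
    exact hx.elim

/-- **The Dynamical Mordell-Lang property of strictly critically finite endomorphisms of projective
space.** -/
theorem result :
    (∀ (N d : ℕ), 1 ≤ d → ∀ f : Fin (N + 1) → MvPolynomial (Fin (N + 1)) ℂ,
      (∀ i, (f i).IsHomogeneous d) →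
      (∀ x : Fin (N + 1) → ℂ, (∀ i, eval x (f i) = 0) → x = 0) →
      ∀ B : Set (MvPolynomial (Fin (N + 1)) ℂ), StrictlyCriticallyFinite f B →
      ∀ S : Set (MvPolynomial (Fin (N + 1)) ℂ), (∀ g ∈ S, ∃ e : ℕ, g.IsHomogeneous e) →
      ∀ a : Fin (N + 1) → ℂ, a ≠ 0 → a ∉ zeroSet B → FiniteUnionAP (returnSet f S a)) ∧
    (∀ (N d : ℕ), 1 ≤ d → ∀ ζ : ℂ, ζ ^ d = 1 → ζ ≠ 1 →
      (∀ x : Fin (N + 1) → ℂ, (∀ i, eval x (fsMap N d ζ i) = 0) → x = 0) ∧
      StrictlyCriticallyFinite (fsMap N d ζ) {1} ∧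
      ∀ S : Set (MvPolynomial (Fin (N + 1)) ℂ), (∀ g ∈ S, ∃ e : ℕ, g.IsHomogeneous e) →
      ∀ a : Fin (N + 1) → ℂ, a ≠ 0 → FiniteUnionAP (returnSet (fsMap N d ζ) S a)) := by
  constructor
  · intro N d hd f hf h0 B hB S _ a ha haB
    exact first hd f hf h0 B hB S a ha haB
  · intro N d hd ζ hζ hζ1
    have hd0 : d ≠ 0 := by omega
    have hζ0 : ζ ≠ 0 := by
      rintro rfl
      rw [zero_pow hd0] at hζ
      exact zero_ne_one hζ
    have h0 : ∀ x : Fin (N + 1) → ℂ, (∀ i, eval x (fsMap N d ζ i) = 0) → x = 0 :=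
      fun x hx => Pool.Agent.R847.PC.fs_ne hd0 hζ1 hζ0 x hx
    refine ⟨h0, fs_strict hd hζ hζ1, fun S _ a ha => ?_⟩
    refine first hd (fsMap N d ζ) ?_ h0 {1} (fs_strict hd hζ hζ1) S a ha ?_
    · intro i
      have h1 : (X 0 - C (1 - ζ) * X (i + 1) : MvPolynomial (Fin (N + 1)) ℂ).IsHomogeneous 1 :=
        (isHomogeneous_X _ _).sub (by
          have := (isHomogeneous_C (Fin (N + 1)) (1 - ζ)).mul (isHomogeneous_X ℂ (i + 1))
          rwa [zero_add] at this)
      have h2 := h1.pow d
      rwa [one_mul] at h2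
    · rintro ⟨-, h⟩
      have := h 1 rfl
      rw [map_one] at this
      exact one_ne_zero this

end Pool.Agent.Results.MP_b15c9e_ag.StrictlyCriticallyFinite
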